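import Mathlib
import Pool.Agent.Q15.CPDefs
import Pool.Agent.Q15.CPGen

namespace Pool.Agent.Results.MP_339db1_al.ProjectionNotGenerated

open Q15CP

/-- The submonoid `G` of `U` generated by the sets `φ_Φ(E_d)`, for `2 ≤ d` and `d`-CP
structures `(Φ; τ)` in `𝕊(U)`. -/
def G {U : Type*} [Monoid U] (c : CPStr U 2) : Submonoid U :=
  Submonoid.closure {m | ∃ (d : ℕ) (S : CPStr U d), 2 ≤ d ∧ InS c d S ∧
    ∃ f : Fin d → Fin d, m = phi S f}

/-- The submonoid generated by the sets `φ_Φ(E_d)` for all `d` and all `d`-CP structures on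
`M` whatsoever. -/
def Gall (M : Type*) [Monoid M] : Submonoid M :=
  Submonoid.closure {m | ∃ (d : ℕ) (S : CPStr M d) (f : Fin d → Fin d), m = phi S f}

/-- A universal CP monoid exists; for every universal CP monoid `U` the submonoid `G` is not
all of `U`; indeed in no nontrivial CP monoid does `π_1` or `π_2` lie in the submonoid
generated by all the images of transformation monoids, for all `d`-CP structures. -/
theorem result.{u, v} :
    (∃ (U : Type) (_ : Monoid U) (c : CPStr U 2), IsUniversal.{0, v} c) ∧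
    (∀ (U : Type u) [Monoid U] (c : CPStr U 2), IsUniversal.{u, v} c →
      G c ≠ ⊤ ∧ ∀ i, c.τ i ∉ G c) ∧
    (∀ (M : Type u) [Monoid M] [Nontrivial M] (c : CPStr M 2) (i : Fin 2),
      c.τ i ∉ Gall M) := by
  refine ⟨⟨U, inferInstance, cU, universal_cU⟩, ?_, ?_⟩
  · intro V _ c hc
    have := nontrivial_of_universal c hc
    have key : ∀ i, c.τ i ∉ G c := by
      intro i h
      apply tau_not_mem c i
      refine Submonoid.closure_mono ?_ h
      rintro m ⟨d, S, -, -, f, rfl⟩
      exact ⟨d, S, f, rfl⟩
    refine ⟨?_, key⟩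
    intro h
    exact key 0 (h ▸ Submonoid.mem_top _)
  · intro M _ _ c i
    exact tau_not_mem c i

end Pool.Agent.Results.MP_339db1_al.ProjectionNotGenerated
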